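import Pool.Agent.L0h48.VO.VERT

/-! # Module FIN: finitely many perfect forms -/

set_option autoImplicit false

open Topology Filter
open scoped Matrix

namespace Pool.Agent.L0h48.VO

open Pool.Agent.L0h16.VO

variable {m : ℕ}

/-- real matrix of an integral matrix -/
abbrev cm (A : Matrix (Fin m) (Fin m) ℤ) : MM m := A.map (Int.cast : ℤ → ℝ)

lemma qf_dot (Q : MM m) (v : Fin m → ℝ) : qf Q v = v ⬝ᵥ (Q *ᵥ v) := by
  unfold qf dotProduct Matrix.mulVec dotProduct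
  refine Finset.sum_congr rfl fun i _ => ?_
  rw [Finset.mul_sum]
  exact Finset.sum_congr rfl fun j _ => by ring

lemma qf_act (A : Matrix (Fin m) (Fin m) ℤ) (Q : MM m) (v : Fin m → ℝ) :
    qf (act A Q) v = qf Q ((cm A)ᵀ *ᵥ v) := by
  rw [qf_dot, qf_dot]
  unfold act
  rw [← Matrix.mulVec_mulVec, ← Matrix.mulVec_mulVec, Matrix.dotProduct_mulVec,
    ← Matrix.mulVec_transpose]

lemma rv_mulVec (A : Matrix (Fin m) (Fin m) ℤ) (v : Fin m → ℤ) : rv (A *ᵥ v) = cm A *ᵥ rv v := by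
  funext i
  unfold rv Matrix.mulVec dotProduct
  push_cast
  rfl

lemma cm_mul (A B : Matrix (Fin m) (Fin m) ℤ) : cm (A * B) = cm A * cm B := by
  unfold cm
  exact Matrix.map_mul (f := Int.castRingHom ℝ)

lemma cm_one : cm (1 : Matrix (Fin m) (Fin m) ℤ) = 1 := by
  unfold cm
  exact Matrix.map_one _ Int.cast_zero Int.cast_one

lemma cm_tr (A : Matrix (Fin m) (Fin m) ℤ) : cm Aᵀ = (cm A)ᵀ := rfl

lemma sq_mul (A : MM m) (v : Fin m → ℝ) :
    Pool.Agent.L0h16.VO.sq (A *ᵥ v) = A * Pool.Agent.L0h16.VO.sq v * Aᵀ := by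
  ext i j
  rw [Matrix.mul_apply]
  simp only [Matrix.mul_apply, Matrix.transpose_apply]
  unfold Pool.Agent.L0h16.VO.sq Matrix.mulVec dotProduct
  rw [Finset.mul_sum]
  refine Finset.sum_congr rfl fun l _ => ?_
  rw [Finset.sum_mul, Finset.sum_mul]
  exact Finset.sum_congr rfl fun k _ => by ring

lemma perf_act {Q : MM m} (hQ : Perf Q) {A C : Matrix (Fin m) (Fin m) ℤ} (hAC : A * C = 1)
    (hCA : C * A = 1) : Perf (act A Q) := by
  have r1 : cm A * cm C = 1 := by rw [← cm_mul, hAC, cm_one]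
  have r2 : cm C * cm A = 1 := by rw [← cm_mul, hCA, cm_one]
  have t1 : (cm A)ᵀ * (cm C)ᵀ = 1 := by rw [← Matrix.transpose_mul, r2, Matrix.transpose_one]
  have t2 : (cm C)ᵀ * (cm A)ᵀ = 1 := by rw [← Matrix.transpose_mul, r1, Matrix.transpose_one]
  have i2 : Cᵀ * Aᵀ = 1 := by rw [← Matrix.transpose_mul, hAC, Matrix.transpose_one]
  refine ⟨⟨?_, ?_⟩, ?_, ?_⟩
  · have h : (act A Q)ᵀ = act A Q := by
      unfold act
      have hQs : Qᵀ = Q := by
        ext i j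
        rw [Matrix.transpose_apply, hQ.pos.1 j i]
      rw [Matrix.transpose_mul, Matrix.transpose_mul, Matrix.transpose_transpose, hQs,
        Matrix.mul_assoc]
    intro i j
    conv_lhs => rw [← h]
    rfl
  · intro v hv
    rw [qf_act]
    apply hQ.pos.2
    intro h0
    apply hv
    have : (cm C)ᵀ *ᵥ ((cm A)ᵀ *ᵥ v) = v := by
      rw [Matrix.mulVec_mulVec, t2, Matrix.one_mulVec]
    rw [← this, h0, Matrix.mulVec_zero]
  · intro v hv
    rw [qf_act, ← cm_tr, ← rv_mulVec]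
    apply hQ.ge
    intro h0
    apply hv
    have : Cᵀ *ᵥ (Aᵀ *ᵥ v) = v := by
      rw [Matrix.mulVec_mulVec, i2, Matrix.one_mulVec]
    rw [← this, h0, Matrix.mulVec_zero]
  · intro x hx
    have hy := hQ.span ((cm A)ᵀ * x * cm A) (by
      have hxs : xᵀ = x := by
        ext i j
        rw [Matrix.transpose_apply, hx j i]
      have h : ((cm A)ᵀ * x * cm A)ᵀ = (cm A)ᵀ * x * cm A := by
        rw [Matrix.transpose_mul, Matrix.transpose_mul, Matrix.transpose_transpose, hxs,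
          Matrix.mul_assoc]
      intro i j
      conv_lhs => rw [← h]
      rfl)
    have hx' : x = (cm C)ᵀ * ((cm A)ᵀ * x * cm A) * cm C := by
      rw [← Matrix.mul_assoc, ← Matrix.mul_assoc, t2, Matrix.one_mul, Matrix.mul_assoc, r1,
        Matrix.mul_one]
    rw [hx']
    generalize (cm A)ᵀ * x * cm A = y at hy
    induction hy using Submodule.span_induction with
    | mem z hz =>
      obtain ⟨v, hv, hv1, rfl⟩ := hz
      apply Submodule.subset_span
      have i3 : Aᵀ * Cᵀ = 1 := by rw [← Matrix.transpose_mul, hCA, Matrix.transpose_one]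
      refine ⟨Cᵀ *ᵥ v, ?_, ?_, ?_⟩
      · intro h0
        apply hv
        have : Aᵀ *ᵥ (Cᵀ *ᵥ v) = v := by
          rw [Matrix.mulVec_mulVec, i3, Matrix.one_mulVec]
        rw [← this, h0, Matrix.mulVec_zero]
      · rw [qf_act, rv_mulVec, cm_tr, Matrix.mulVec_mulVec, t1, Matrix.one_mulVec, hv1]
      · rw [rv_mulVec, cm_tr, sq_mul, Matrix.transpose_transpose]
    | zero =>
      rw [Matrix.mul_zero, Matrix.zero_mul]
      exact Submodule.zero_mem _
    | add a b _ _ ha hb =>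
      rw [Matrix.mul_add, Matrix.add_mul]
      exact Submodule.add_mem _ ha hb
    | smul c a _ ha =>
      rw [Matrix.mul_smul, Matrix.smul_mul]
      exact Submodule.smul_mem _ _ ha

lemma pr_add_right (Q x y : MM m) : pr Q (x + y) = pr Q x + pr Q y := by
  simp only [← prL_apply, map_add]

lemma pr_smul_right (c : ℝ) (Q x : MM m) : pr Q (c • x) = c * pr Q x := by
  simp only [← prL_apply, map_smul, smul_eq_mul]

lemma pr_self {Z : MM m} (h : pr Z Z = 0) : Z = 0 := by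
  unfold pr at h
  have h1 := (Finset.sum_eq_zero_iff_of_nonneg (fun i _ => Finset.sum_nonneg fun j _ =>
    mul_self_nonneg (Z i j))).1 h
  ext i j
  have h2 := (Finset.sum_eq_zero_iff_of_nonneg (fun j _ =>
    mul_self_nonneg (Z i j))).1 (h1 i (Finset.mem_univ i)) j (Finset.mem_univ j)
  rw [Matrix.zero_apply]
  exact mul_self_eq_zero.1 h2

/-- a functional which vanishes on the minimal vectors -/
lemma pr_zero {Q : MM m} (hQ : Perf Q) {Z : MM m}
    (h : ∀ v : Fin m → ℤ, v ≠ 0 → qf Q (rv v) = 1 → pr Z (Pool.Agent.L0h16.VO.sq (rv v)) = 0)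
    (x : MM m) (hx : ∀ i j, x i j = x j i) : pr Z x = 0 := by
  have h1 := hQ.span x hx
  have h2 : Submodule.span ℝ {z | ∃ v : Fin m → ℤ, v ≠ 0 ∧ qf Q (rv v) = 1 ∧
      z = Pool.Agent.L0h16.VO.sq (rv v)} ≤ LinearMap.ker (prL Z) := by
    rw [Submodule.span_le]
    rintro z ⟨v, hv, hv1, rfl⟩
    exact h v hv hv1
  exact h2 h1

lemma sq_sq (w y : Fin m → ℝ) :
    pr (Pool.Agent.L0h16.VO.sq w) (Pool.Agent.L0h16.VO.sq y) = (∑ i, w i * y i) ^ 2 := by
  unfold pr Pool.Agent.L0h16.VO.sq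
  rw [_root_.sq, Finset.sum_mul_sum]
  exact Finset.sum_congr rfl fun i _ => Finset.sum_congr rfl fun j _ => by ring

lemma span_min {Q : MM m} (hQ : Perf Q) :
    Submodule.span ℝ {y | ∃ v : Fin m → ℤ, v ≠ 0 ∧ qf Q (rv v) = 1 ∧ y = rv v} = ⊤ := by
  by_contra hne
  obtain ⟨f, hf0, hf⟩ := Submodule.exists_le_ker_of_lt_top _ (lt_top_iff_ne_top.2 hne)
  obtain ⟨w, hw⟩ : ∃ w : Fin m → ℝ, ∀ y, f y = ∑ i, w i * y i := by
    refine ⟨fun i => f (Pi.single i 1), fun y => ?_⟩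
    conv_lhs => rw [pi_eq_sum_univ' y]
    rw [map_sum]
    refine Finset.sum_congr rfl fun i _ => ?_
    rw [map_smul, smul_eq_mul, mul_comm]
  have h1 := pr_zero hQ (Z := Pool.Agent.L0h16.VO.sq w) (fun v hv hv1 => by
    have h2 : rv v ∈ LinearMap.ker f := hf (Submodule.subset_span ⟨v, hv, hv1, rfl⟩)
    rw [LinearMap.mem_ker, hw] at h2
    rw [sq_sq, h2]
    ring) (Pool.Agent.L0h16.VO.sq w) (sq_symm w)
  have h3 := pr_self h1
  apply hf0
  ext i
  have h4 : w i * w i = 0 := by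
    have := congrFun (congrFun h3 i) i
    exact this
  have h5 : w i = 0 := mul_self_eq_zero.1 h4
  simp only [LinearMap.coe_comp, Function.comp_apply, LinearMap.coe_single, LinearMap.zero_apply]
  rw [hw, Finset.sum_eq_single i]
  · rw [h5, zero_mul]
  · intro j _ hj
    rw [Pi.single_eq_of_ne hj, mul_zero]
  · intro h; exact absurd (Finset.mem_univ i) h

lemma cast_det (V : Matrix (Fin m) (Fin m) ℤ) : ((V.det : ℤ) : ℝ) = (cm V).det :=
  (Int.castRingHom ℝ).map_det V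

lemma exists_V {Q : MM m} (hQ : Perf Q) : ∃ V : Matrix (Fin m) (Fin m) ℤ, V.det ≠ 0 ∧
    ∀ j, qf Q (rv fun i => V i j) = 1 := by
  obtain ⟨b, hbS, hbs, hbl⟩ := exists_linearIndependent ℝ
    {y | ∃ v : Fin m → ℤ, v ≠ 0 ∧ qf Q (rv v) = 1 ∧ y = rv v}
  rw [span_min hQ] at hbs
  let B : Module.Basis b ℝ (Fin m → ℝ) := Module.Basis.mk hbl (by
    rw [Subtype.range_coe, hbs])
  let e : b ≃ Fin m := B.indexEquiv (Pi.basisFun ℝ (Fin m))
  have hch : ∀ j : Fin m, ∃ v : Fin m → ℤ, qf Q (rv v) = 1 ∧ ((e.symm j : b) : Fin m → ℝ) = rv v := by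
    intro j
    obtain ⟨v, -, h1, h2⟩ := hbS (e.symm j).2
    exact ⟨v, h1, h2⟩
  choose v hv1 hv2 using hch
  refine ⟨fun i j => v j i, ?_, fun j => hv1 j⟩
  have h1 : LinearIndependent ℝ (fun j => ((e.symm j : b) : Fin m → ℝ)) :=
    hbl.comp e.symm e.symm.injective
  have h2 : (cm (fun i j => v j i)).col = fun j => ((e.symm j : b) : Fin m → ℝ) := by
    funext j i
    rw [hv2 j]
    rfl
  rw [← h2, Matrix.linearIndependent_cols_iff_isUnit, Matrix.isUnit_iff_isUnit_det,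
    ← cast_det, isUnit_iff_ne_zero] at h1
  exact_mod_cast h1

lemma one_pd (hB : S_BAS) : (1 : MM m) ∈ PD m := (hB m).2.2.2.2.2.1 1 one_mem.1 one_mem.2

lemma qf_one (v : Fin m → ℝ) : qf (1 : MM m) v = ∑ i, v i ^ 2 := by
  rw [qf_dot, Matrix.one_mulVec]
  unfold dotProduct
  exact Finset.sum_congr rfl fun i _ => by ring

lemma uniform (hB : S_BAS) (hm : 0 < m) (R : ℝ) : ∃ c : ℝ, 0 < c ∧ ∀ Q ∈ PP m,
    (∀ i j, |Q i j| ≤ R) → ∀ v, c * ∑ i, v i ^ 2 ≤ qf Q v := by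
  obtain ⟨-, -, -, -, -, b6, -⟩ := hB m
  obtain ⟨K, hK⟩ : ∃ K, K = PP m ∩ {Q : MM m | ∀ i j, |Q i j| ≤ R} := ⟨_, rfl⟩
  have hKc : IsCompact K := by
    rw [hK]
    exact (box_compact R).inter_left PP_closed
  obtain ⟨S, hS⟩ : ∃ S : Set (Fin m → ℝ), S = {v | ∑ i, v i ^ 2 = 1} := ⟨_, rfl⟩
  have hSc : IsCompact S := by
    have h1 : IsCompact (Set.pi Set.univ fun _ : Fin m => Set.Icc (-1 : ℝ) 1) :=
      isCompact_univ_pi fun _ => isCompact_Icc
    refine h1.of_isClosed_subset ?_ ?_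
    · rw [hS]
      exact isClosed_eq (by fun_prop) continuous_const
    · rw [hS]
      intro v hv i _
      have h2 : ∑ i, v i ^ 2 = 1 := hv
      have h3 : v i ^ 2 ≤ ∑ i, v i ^ 2 :=
        Finset.single_le_sum (f := fun i => v i ^ 2) (fun i _ => sq_nonneg _) (Finset.mem_univ i)
      rw [h2] at h3
      rw [Set.mem_Icc, ← abs_le]
      exact (sq_le_one_iff_abs_le_one _).1 h3
  by_cases hne : K.Nonempty
  · have hSne : S.Nonempty := by
      refine ⟨Pi.single ⟨0, hm⟩ 1, ?_⟩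
      rw [hS]
      show ∑ i, (Pi.single (⟨0, hm⟩ : Fin m) (1 : ℝ) : Fin m → ℝ) i ^ 2 = 1
      rw [Finset.sum_eq_single ⟨0, hm⟩]
      · rw [Pi.single_eq_same]; norm_num
      · intro j _ hj
        rw [Pi.single_eq_of_ne hj]; norm_num
      · intro h; exact absurd (Finset.mem_univ _) h
    obtain ⟨⟨Q0, v0⟩, ⟨hQ0, hv0⟩, hmin⟩ := (hKc.prod hSc).exists_isMinOn (hne.prod hSne)
      (f := fun p : MM m × (Fin m → ℝ) => qf p.1 p.2) (by
        apply Continuous.continuousOn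
        unfold qf
        refine continuous_finsetSum _ fun i _ => continuous_finsetSum _ fun j _ => ?_
        have c1 : Continuous fun p : MM m × (Fin m → ℝ) => p.1 i j :=
          continuous_fst.matrix_elem i j
        have c2 : ∀ k, Continuous fun p : MM m × (Fin m → ℝ) => p.2 k := fun k =>
          (continuous_apply k).comp continuous_snd
        exact (c1.mul (c2 i)).mul (c2 j))
    refine ⟨qf Q0 v0, ?_, ?_⟩
    · have hQ0' : Q0 ∈ K := hQ0
      have hv0' : v0 ∈ S := hv0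
      rw [hK] at hQ0'
      apply (b6 Q0 hQ0'.1.1 hQ0'.1.2).2
      rintro rfl
      rw [hS] at hv0'
      have : ∑ i : Fin m, (0 : Fin m → ℝ) i ^ 2 = 1 := hv0'
      simp at this
    · intro Q hQ hQR v
      obtain ⟨s, hs⟩ : ∃ s, s = ∑ i, v i ^ 2 := ⟨_, rfl⟩
      have hs0 : 0 ≤ s := by rw [hs]; exact Finset.sum_nonneg fun i _ => sq_nonneg _
      rw [← hs]
      rcases hs0.eq_or_lt with h0 | h0
      · rw [← h0, mul_zero]
        exact hQ.1.2 v
      · have h1 : (Q, (Real.sqrt s)⁻¹ • v) ∈ K ×ˢ S := by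
          refine ⟨by rw [hK]; exact ⟨hQ, hQR⟩, ?_⟩
          rw [hS]
          show ∑ i, ((Real.sqrt s)⁻¹ • v) i ^ 2 = 1
          simp only [Pi.smul_apply, smul_eq_mul, mul_pow]
          rw [← Finset.mul_sum, ← hs, inv_pow, Real.sq_sqrt hs0]
          exact inv_mul_cancel₀ h0.ne'
        have h2 : qf Q0 v0 ≤ qf Q ((Real.sqrt s)⁻¹ • v) := hmin h1
        have h3 : qf Q ((Real.sqrt s)⁻¹ • v) = s⁻¹ * qf Q v := by
          rw [qf_dot, qf_dot, Matrix.mulVec_smul, smul_dotProduct, dotProduct_smul, smul_eq_mul,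
            smul_eq_mul, ← mul_assoc, ← mul_inv, Real.mul_self_sqrt hs0]
        rw [h3, ← mul_le_mul_iff_left₀ h0, mul_comm s⁻¹, mul_assoc, inv_mul_cancel₀ h0.ne',
          mul_one] at h2
        exact h2
  · refine ⟨1, one_pos, fun Q hQ hQR v => ?_⟩
    exact absurd ⟨Q, by rw [hK]; exact ⟨hQ, hQR⟩⟩ hne

lemma fin_V (hB : S_BAS) (hm : 0 < m) (V : Matrix (Fin m) (Fin m) ℤ) (hV : V.det ≠ 0) :
    {Q : MM m | Perf Q ∧ ∀ j, qf Q (rv fun i => V i j) = 1}.Finite := by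
  obtain ⟨-, -, b3, -, -, -, b7⟩ := hB m
  obtain ⟨x, hx⟩ : ∃ x : MM m, x = ∑ j, Pool.Agent.L0h16.VO.sq (rv fun i => V i j) := ⟨_, rfl⟩
  have hpx : ∀ Q : MM m, pr Q x = ∑ j, qf Q (rv fun i => V i j) := by
    intro Q
    rw [hx, ← prL_apply, map_sum]
    exact Finset.sum_congr rfl fun j _ => by rw [qf_pr]; rfl
  have hxpd : x ∈ PD m := by
    refine ⟨fun i j => ?_, fun v hv => ?_⟩
    · rw [hx, Matrix.sum_apply, Matrix.sum_apply]
      exact Finset.sum_congr rfl fun k _ => sq_symm _ i j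
    · have h1 : qf x v = ∑ j, (∑ i, v i * (V i j : ℝ)) ^ 2 := by
        rw [qf_pr, hx, pr_comm, ← prL_apply, map_sum]
        exact Finset.sum_congr rfl fun j _ => by
          rw [prL_apply, sq_sq]
          rfl
      rw [h1]
      refine lt_of_le_of_ne (Finset.sum_nonneg fun j _ => sq_nonneg _) (Ne.symm fun h0 => hv ?_)
      have h2 := (Finset.sum_eq_zero_iff_of_nonneg (fun j _ =>
        sq_nonneg (∑ i, v i * (V i j : ℝ)))).1 h0
      have h3 : v ᵥ* (cm V) = 0 := by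
        funext j
        exact pow_eq_zero_iff (two_ne_zero) |>.1 (h2 j (Finset.mem_univ j))
      apply Matrix.eq_zero_of_vecMul_eq_zero (M := cm V) _ h3
      rw [← cast_det]
      exact_mod_cast hV
  obtain ⟨c, hc, hcx⟩ := b3 x hxpd
  obtain ⟨c', hc', hu⟩ := uniform hB hm ((m : ℝ) / c)
  have hfin := b7 1 (one_pd hB) (1 / c')
  have key : ∀ Q : MM m, (Perf Q ∧ ∀ j, qf Q (rv fun i => V i j) = 1) →
      {v : Fin m → ℤ | v ≠ 0 ∧ qf Q (rv v) = 1} ⊆ {v | qf (1 : MM m) (rv v) ≤ 1 / c'} := by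
    rintro Q ⟨hQ, hQV⟩ v ⟨-, hv⟩
    have hQ1 : Q ∈ PSD m := ⟨hQ.pos.1, fun v => by
      by_cases h : v = 0
      · rw [h, qf_dot, zero_dotProduct]
      · exact (hQ.pos.2 v h).le⟩
    have h1 := hu Q ⟨hQ1, hQ.ge⟩ (fun i j => by
      rw [le_div_iff₀ hc, mul_comm]
      refine (hcx Q hQ1 i j).trans ?_
      rw [hpx, Finset.sum_congr rfl fun j _ => hQV j]
      simp) (rv v)
    rw [hv] at h1
    show qf (1 : MM m) (rv v) ≤ 1 / c'
    rw [qf_one, le_div_iff₀ hc', mul_comm]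
    exact h1
  apply Set.Finite.of_finite_image (f := fun Q : MM m => {v : Fin m → ℤ | v ≠ 0 ∧ qf Q (rv v) = 1})
  · refine hfin.finite_subsets.subset ?_
    rintro s ⟨Q, hQ, rfl⟩
    exact key Q hQ
  · rintro Q ⟨hQ, -⟩ Q' ⟨hQ', -⟩ h
    have h1 : ∀ v : Fin m → ℤ, v ≠ 0 → qf Q (rv v) = 1 →
        pr (Q + -Q') (Pool.Agent.L0h16.VO.sq (rv v)) = 0 := by
      intro v hv hv1
      have h2 : v ∈ {v : Fin m → ℤ | v ≠ 0 ∧ qf Q' (rv v) = 1} := by
        have h' : {v : Fin m → ℤ | v ≠ 0 ∧ qf Q (rv v) = 1} =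
          {v : Fin m → ℤ | v ≠ 0 ∧ qf Q' (rv v) = 1} := h
        rw [← h']
        exact ⟨hv, hv1⟩
      rw [pr_add_left, pr_neg_left, ← qf_pr, ← qf_pr, hv1, h2.2]
      norm_num
    have h2 := pr_self (pr_zero hQ h1 (Q + -Q') (fun i j => by
      rw [Matrix.add_apply, Matrix.add_apply, Matrix.neg_apply, Matrix.neg_apply, hQ.pos.1 i j,
        hQ'.pos.1 i j]))
    exact add_neg_eq_zero.1 h2

theorem t_FIN : S_FIN := by
  intro hB hD hL m hm
  obtain ⟨c, hc, hcD⟩ := hD m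
  obtain ⟨𝒱, h𝒱0, h𝒱⟩ := hL m ⌈1 / c⌉
  refine ⟨⋃ V ∈ 𝒱, {Q : MM m | Perf Q ∧ ∀ j, qf Q (rv fun i => V i j) = 1}, ?_, ?_, ?_⟩
  · exact Set.Finite.biUnion (Finset.finite_toSet 𝒱) fun V hV => fin_V hB hm V (h𝒱0 V hV)
  · intro Q hQ
    simp only [Set.mem_iUnion] at hQ
    obtain ⟨V, -, h, -⟩ := hQ
    exact h
  · intro Q hQ
    obtain ⟨V, hV0, hV1⟩ := exists_V hQ
    obtain ⟨hd1, hd2⟩ := hcD Q hQ.pos hQ.ge
    have hd3 := hd2 V hV0 hV1
    have hk : |V.det| ≤ ⌈1 / c⌉ := by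
      have h1 : ((V.det : ℤ) : ℝ) ^ 2 ≤ 1 / c := by
        rw [le_div_iff₀ hc]
        exact (mul_le_mul_of_nonneg_left hd1 (sq_nonneg _)).trans hd3
      have h2 : |V.det| ≤ V.det ^ 2 := by
        have h3 := Int.one_le_abs hV0
        rw [← sq_abs]
        nlinarith
      have h3 : ((|V.det| : ℤ) : ℝ) ≤ ((⌈1 / c⌉ : ℤ) : ℝ) := by
        refine le_trans ?_ (Int.le_ceil (1 / c))
        refine le_trans ?_ h1
        exact_mod_cast h2
      exact_mod_cast h3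
    obtain ⟨A', hA', hA'V⟩ := h𝒱 V hV0 hk
    have e1 : A' * A'⁻¹ = 1 := Matrix.mul_nonsing_inv A' hA'
    have e2 : A'⁻¹ * A' = 1 := Matrix.nonsing_inv_mul A' hA'
    have e3 : (A'⁻¹)ᵀ * A'ᵀ = 1 := by rw [← Matrix.transpose_mul, e1, Matrix.transpose_one]
    have e4 : A'ᵀ * (A'⁻¹)ᵀ = 1 := by rw [← Matrix.transpose_mul, e2, Matrix.transpose_one]
    refine ⟨(A'⁻¹)ᵀ, ?_, ?_⟩
    · rw [← Matrix.isUnit_iff_isUnit_det]
      exact ⟨⟨_, _, e3, e4⟩, rfl⟩
    · simp only [Set.mem_iUnion]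
      refine ⟨A' * V, hA'V, perf_act hQ e3 e4, fun j => ?_⟩
      have h1 : (fun i => (A' * V) i j) = A' *ᵥ (fun i => V i j) := by
        funext i
        rw [Matrix.mul_apply]
        rfl
      rw [h1, qf_act, ← cm_tr, Matrix.transpose_transpose, ← rv_mulVec, Matrix.mulVec_mulVec, e2,
        Matrix.one_mulVec]
      exact hV1 j

end Pool.Agent.L0h48.VO
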