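import Pool.Agent.L0h16.VO.Defs
import Pool.Agent.H575R2.Farkas

/-! # Module VERT: every positive definite form is in the cone of a perfect form -/

set_option autoImplicit false

open Topology Filter

namespace Pool.Agent.L0h48.VO

open Pool.Agent.L0h16.VO

/-- square matrices -/
abbrev MM (m : ℕ) := Matrix (Fin m) (Fin m) ℝ

variable {m : ℕ}

/-- the pairing as a bilinear map -/
noncomputable def prL : MM m →ₗ[ℝ] MM m →ₗ[ℝ] ℝ :=
  LinearMap.mk₂ ℝ (pr (m := m))
    (fun x y z => by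
      simp only [pr, Matrix.add_apply, add_mul, Finset.sum_add_distrib])
    (fun c x y => by
      simp only [pr, Matrix.smul_apply, smul_eq_mul, Finset.mul_sum]
      exact Finset.sum_congr rfl fun i _ => Finset.sum_congr rfl fun j _ => by ring)
    (fun x y z => by
      simp only [pr, Matrix.add_apply, mul_add, Finset.sum_add_distrib])
    (fun c x y => by
      simp only [pr, Matrix.smul_apply, smul_eq_mul, Finset.mul_sum]
      exact Finset.sum_congr rfl fun i _ => Finset.sum_congr rfl fun j _ => by ring)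

@[simp] lemma prL_apply (Q x : MM m) : prL Q x = pr Q x := rfl

lemma pr_add_left (Q R x : MM m) : pr (Q + R) x = pr Q x + pr R x := by
  simp only [← prL_apply, map_add, LinearMap.add_apply]

lemma pr_smul_left (c : ℝ) (Q x : MM m) : pr (c • Q) x = c * pr Q x := by
  simp only [← prL_apply, map_smul, LinearMap.smul_apply, smul_eq_mul]

lemma pr_neg_left (Q x : MM m) : pr (-Q) x = -pr Q x := by
  simp only [← prL_apply, map_neg, LinearMap.neg_apply]

lemma pr_comm (Q x : MM m) : pr Q x = pr x Q := by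
  unfold pr
  exact Finset.sum_congr rfl fun i _ => Finset.sum_congr rfl fun j _ => mul_comm _ _

lemma pr_tr (Q x : MM m) (hx : ∀ i j, x i j = x j i) : pr Q.transpose x = pr Q x := by
  unfold pr
  rw [Finset.sum_comm]
  exact Finset.sum_congr rfl fun i _ => Finset.sum_congr rfl fun j _ => by
    rw [Matrix.transpose_apply, hx j i]

lemma sq_symm (v : Fin m → ℝ) (i j : Fin m) : sq v i j = sq v j i := by
  unfold Pool.Agent.L0h16.VO.sq
  ring

lemma qf_pr (Q : MM m) (v : Fin m → ℝ) : qf Q v = pr Q (sq v) := by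
  unfold qf pr Pool.Agent.L0h16.VO.sq
  exact Finset.sum_congr rfl fun i _ => Finset.sum_congr rfl fun j _ => by ring

lemma qf_add (Q R : MM m) (v : Fin m → ℝ) : qf (Q + R) v = qf Q v + qf R v := by
  rw [qf_pr, qf_pr, qf_pr, pr_add_left]

lemma qf_smul (c : ℝ) (Q : MM m) (v : Fin m → ℝ) : qf (c • Q) v = c * qf Q v := by
  rw [qf_pr, qf_pr, pr_smul_left]

lemma pr_cont (x : MM m) : Continuous fun Q : MM m => pr Q x := by
  unfold pr
  exact continuous_finsetSum _ fun i _ => continuous_finsetSum _ fun j _ =>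
    (continuous_id.matrix_elem i j).mul_const _

lemma qf_cont (v : Fin m → ℝ) : Continuous fun Q : MM m => qf Q v := by
  simp only [qf_pr]
  exact pr_cont _

/-- semidefinite forms which are at least one on the lattice -/
def PP (m : ℕ) : Set (MM m) := {Q | Q ∈ PSD m ∧ ∀ v : Fin m → ℤ, v ≠ 0 → 1 ≤ qf Q (rv v)}

lemma PP_closed : IsClosed (PP m) := by
  have e : PP m = ((⋂ i, ⋂ j, {Q : MM m | Q i j = Q j i}) ∩ (⋂ v, {Q : MM m | 0 ≤ qf Q v})) ∩
      (⋂ v : Fin m → ℤ, ⋂ (_ : v ≠ 0), {Q : MM m | 1 ≤ qf Q (rv v)}) := by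
    ext Q
    simp only [PP, PSD, Set.mem_ofPred_eq, Set.mem_inter_iff, Set.mem_iInter]
  rw [e]
  refine IsClosed.inter (IsClosed.inter ?_ ?_) ?_
  · exact isClosed_iInter fun i => isClosed_iInter fun j =>
      isClosed_eq (continuous_id.matrix_elem i j) (continuous_id.matrix_elem j i)
  · exact isClosed_iInter fun v => isClosed_le continuous_const (qf_cont v)
  · exact isClosed_iInter fun v => isClosed_iInter fun _ => isClosed_le continuous_const (qf_cont _)

lemma box_compact (R : ℝ) : IsCompact {Q : MM m | ∀ i j, |Q i j| ≤ R} := by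
  have h : IsCompact (Set.pi Set.univ (fun _ : Fin m => Set.pi Set.univ
      (fun _ : Fin m => Set.Icc (-R) R))) :=
    isCompact_univ_pi (fun i : Fin m => isCompact_univ_pi (fun j : Fin m => isCompact_Icc))
  have e : {Q : MM m | ∀ i j, |Q i j| ≤ R} = (Set.pi Set.univ (fun _ : Fin m => Set.pi Set.univ
      (fun _ : Fin m => Set.Icc (-R) R)) : Set (Fin m → Fin m → ℝ)) := by
    ext Q
    simp only [Set.mem_ofPred_eq, abs_le]
    exact ⟨fun h i _ j _ => h i j, fun h i j => h i trivial j trivial⟩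
  rw [e]
  exact h

instance lcs : LocallyConvexSpace ℝ (MM m) :=
  inferInstanceAs (LocallyConvexSpace ℝ (Fin m → Fin m → ℝ))

lemma sum_sq_ge (v : Fin m → ℤ) (hv : v ≠ 0) : 1 ≤ ∑ i, (rv v i) ^ 2 := by
  obtain ⟨i, hi⟩ := Function.ne_iff.1 hv
  have h1 : (1 : ℝ) ≤ (rv v i) ^ 2 := by
    unfold rv
    have : 1 ≤ (v i) ^ 2 := by
      have h : v i ≠ 0 := hi
      have := sq_pos_of_ne_zero h
      omega
    exact_mod_cast this
  exact h1.trans (Finset.single_le_sum (f := fun i => (rv v i) ^ 2)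
    (fun i _ => sq_nonneg _) (Finset.mem_univ i))

lemma one_mem : (1 : MM m) ∈ PP m := by
  have h : ∀ v : Fin m → ℝ, qf (1 : MM m) v = ∑ i, v i ^ 2 := by
    intro v
    unfold qf
    refine Finset.sum_congr rfl fun i _ => ?_
    rw [Finset.sum_eq_single i]
    · rw [Matrix.one_apply_eq]; ring
    · intro j _ hj
      rw [Matrix.one_apply_ne' hj]; ring
    · intro h; exact absurd (Finset.mem_univ i) h
  refine ⟨⟨fun i j => ?_, fun v => ?_⟩, fun v hv => ?_⟩
  · rw [Matrix.one_apply, Matrix.one_apply]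
    simp only [eq_comm]
  · rw [h]
    exact Finset.sum_nonneg fun i _ => sq_nonneg _
  · rw [h]
    exact sum_sq_ge v hv

/-- an elementary bound -/
lemma qf_abs (Z : MM m) (v : Fin m → ℝ) : |qf Z v| ≤ (∑ i, ∑ j, |Z i j|) * ∑ i, v i ^ 2 := by
  unfold qf
  rw [Finset.sum_mul]
  refine (Finset.abs_sum_le_sum_abs _ _).trans (Finset.sum_le_sum fun i _ => ?_)
  rw [Finset.sum_mul]
  refine (Finset.abs_sum_le_sum_abs _ _).trans (Finset.sum_le_sum fun j _ => ?_)
  rw [mul_assoc, abs_mul]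
  refine mul_le_mul_of_nonneg_left ?_ (abs_nonneg _)
  have h1 : v i ^ 2 ≤ ∑ i, v i ^ 2 :=
    Finset.single_le_sum (f := fun i => v i ^ 2) (fun i _ => sq_nonneg _) (Finset.mem_univ i)
  have h2 : v j ^ 2 ≤ ∑ i, v i ^ 2 :=
    Finset.single_le_sum (f := fun i => v i ^ 2) (fun i _ => sq_nonneg _) (Finset.mem_univ j)
  rw [abs_le]
  constructor
  · nlinarith [sq_nonneg (v i + v j)]
  · nlinarith [sq_nonneg (v i - v j)]

/-- local finiteness -/
lemma local_fin (hB : S_BAS) {u : MM m} (hu : u ∈ PD m) (Z : MM m) :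
    ∀ᶠ ε : ℝ in 𝓝[>] 0, ∀ v : Fin m → ℤ, 1 < qf u (rv v) → 1 ≤ qf (u + ε • Z) (rv v) := by
  obtain ⟨-, -, -, b4, -, -, b7⟩ := hB m
  obtain ⟨c, hc, hcu⟩ := b4 u hu
  obtain ⟨C, hC⟩ : ∃ C, C = (∑ i, ∑ j, |Z i j|) / c + 1 := ⟨_, rfl⟩
  have hS : 0 ≤ ∑ i, ∑ j, |Z i j| :=
    Finset.sum_nonneg fun i _ => Finset.sum_nonneg fun j _ => abs_nonneg _
  have hC0 : 0 < C := by rw [hC]; positivity
  have hCd : ∀ v, |qf Z v| ≤ C * qf u v := by
    intro v
    have h1 := qf_abs Z v
    have h2 := hcu v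
    have h3 : 0 ≤ ∑ i, v i ^ 2 := Finset.sum_nonneg fun i _ => sq_nonneg _
    have h4 : 0 ≤ qf u v := (mul_nonneg hc.le h3).trans h2
    calc |qf Z v| ≤ (∑ i, ∑ j, |Z i j|) * ∑ i, v i ^ 2 := h1
      _ = (∑ i, ∑ j, |Z i j|) / c * (c * ∑ i, v i ^ 2) := by field_simp
      _ ≤ (∑ i, ∑ j, |Z i j|) / c * qf u v := mul_le_mul_of_nonneg_left h2 (by positivity)
      _ ≤ C * qf u v := by rw [hC]; nlinarith
  have hfin : {v : Fin m → ℤ | qf u (rv v) ≤ 2}.Finite := b7 u hu 2
  have h1 : ∀ᶠ ε : ℝ in 𝓝[>] 0, ∀ v ∈ {v : Fin m → ℤ | qf u (rv v) ≤ 2}, 1 < qf u (rv v) →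
      1 ≤ qf (u + ε • Z) (rv v) := by
    rw [Filter.eventually_all_finite hfin]
    intro v _
    by_cases hv : 1 < qf u (rv v)
    · have hcont : Continuous fun ε : ℝ => qf (u + ε • Z) (rv v) := by
        simp only [qf_add, qf_smul]
        fun_prop
      have h2 : Tendsto (fun ε : ℝ => qf (u + ε • Z) (rv v)) (𝓝[>] 0)
          (𝓝 (qf (u + (0 : ℝ) • Z) (rv v))) :=
        (hcont.tendsto 0).mono_left nhdsWithin_le_nhds
      rw [zero_smul, add_zero] at h2
      filter_upwards [h2.eventually (lt_mem_nhds hv)] with ε hε _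
      exact hε.le
    · exact Eventually.of_forall fun ε h3 => absurd h3 hv
  have h2 : ∀ᶠ ε : ℝ in 𝓝[>] 0, ε < 1 / (2 * C) :=
    (eventually_lt_nhds (show (0 : ℝ) < 1 / (2 * C) by positivity)).filter_mono nhdsWithin_le_nhds
  filter_upwards [h1, h2, self_mem_nhdsWithin] with ε h3 h4 h5
  intro v hv1
  have hε : 0 < ε := h5
  by_cases hv2 : qf u (rv v) ≤ 2
  · exact h3 v hv2 hv1
  · push Not at hv2
    rw [qf_add, qf_smul]
    have h6 := (abs_le.1 (hCd (rv v))).1
    have h7 : ε * C ≤ 1 / 2 := by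
      have := mul_le_mul_of_nonneg_right h4.le hC0.le
      calc ε * C ≤ 1 / (2 * C) * C := this
        _ = 1 / 2 := by field_simp
    have h8 : ε * -(C * qf u (rv v)) ≤ ε * qf Z (rv v) := mul_le_mul_of_nonneg_left h6 hε.le
    nlinarith

/-- moving inside the polyhedron -/
lemma move (hB : S_BAS) {u : MM m} (hu : u ∈ PD m) (huP : u ∈ PP m) (Z : MM m)
    (hZ : ∀ i j, Z i j = Z j i)
    (hd : ∀ v : Fin m → ℤ, v ≠ 0 → qf u (rv v) = 1 → 0 ≤ qf Z (rv v)) :
    ∀ᶠ ε : ℝ in 𝓝[>] 0, u + ε • Z ∈ PP m := by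
  obtain ⟨-, -, -, -, b5, -, -⟩ := hB m
  obtain ⟨ε₀, hε₀, h5⟩ := b5 u hu
  have h2 : ∀ᶠ ε : ℝ in 𝓝[>] 0, ∀ i j, |(ε • Z) i j| < ε₀ := by
    rw [eventually_all]
    intro i
    rw [eventually_all]
    intro j
    have hcont : Continuous fun ε : ℝ => |(ε • Z) i j| := by
      simp only [Matrix.smul_apply, smul_eq_mul]
      fun_prop
    have h2 : Tendsto (fun ε : ℝ => |(ε • Z) i j|) (𝓝[>] 0) (𝓝 (|((0 : ℝ) • Z) i j|)) :=
      (hcont.tendsto 0).mono_left nhdsWithin_le_nhds
    rw [zero_smul, Matrix.zero_apply, abs_zero] at h2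
    exact h2.eventually (gt_mem_nhds hε₀)
  filter_upwards [local_fin hB hu Z, h2, self_mem_nhdsWithin] with ε h1 h2 h3
  have hε : 0 < ε := h3
  have h4 := h5 (ε • Z) (fun i j => by
    rw [Matrix.smul_apply, Matrix.smul_apply, hZ i j]) h2
  refine ⟨⟨h4.1, fun v => ?_⟩, fun v hv => ?_⟩
  · by_cases hv : v = 0
    · rw [hv]
      unfold qf
      simp
    · exact (h4.2 v hv).le
  · rcases (huP.2 v hv).lt_or_eq with h6 | h6
    · exact h1 v h6
    · rw [qf_add, qf_smul, ← h6]
      have := mul_nonneg hε.le (hd v hv h6.symm)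
      linarith

theorem t_VERT : S_VERT := by
  intro hB m hm x hx
  obtain ⟨b1, b2, b3, b4, b5, b6, b7⟩ := hB m
  have hxs := hx.1
  obtain ⟨cx, hcx, hxx⟩ := b3 x hx
  -- the minimum
  have hK : IsCompact (PP m ∩ {Q : MM m | pr Q x ≤ pr (1 : MM m) x}) := by
    refine (box_compact (m := m) (pr (1 : MM m) x / cx)).of_isClosed_subset
      (PP_closed.inter (isClosed_le (pr_cont x) continuous_const)) ?_
    rintro Q ⟨hQ1, hQ2⟩ i j
    rw [le_div_iff₀ hcx, mul_comm]
    exact (hxx Q hQ1.1 i j).trans hQ2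
  obtain ⟨u0, ⟨hu0a, hu0b⟩, hu0m⟩ := hK.exists_isMinOn ⟨1, one_mem, le_refl (pr (1 : MM m) x)⟩
    (pr_cont x).continuousOn
  have hmin : ∀ u ∈ PP m, pr u0 x ≤ pr u x := by
    intro u hu
    by_cases h1 : pr u x ≤ pr (1 : MM m) x
    · exact hu0m ⟨hu, h1⟩
    · push Not at h1
      exact (hu0b.trans h1.le)
  obtain ⟨μ, hμ⟩ : ∃ μ, μ = pr u0 x := ⟨_, rfl⟩
  -- the face
  obtain ⟨Fc, hFc⟩ : ∃ Fc, Fc = PP m ∩ {u : MM m | pr u x = μ} := ⟨_, rfl⟩
  have hFcc : IsCompact Fc := by
    refine hK.of_isClosed_subset ?_ ?_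
    · rw [hFc]
      exact PP_closed.inter (isClosed_eq (pr_cont x) continuous_const)
    · rw [hFc]
      rintro u ⟨h1, h2⟩
      refine ⟨h1, ?_⟩
      have h3 : pr u x = μ := h2
      show pr u x ≤ _
      rw [h3, hμ]
      exact hu0b
  obtain ⟨u, hu⟩ := hFcc.extremePoints_nonempty ⟨u0, by rw [hFc]; exact ⟨hu0a, hμ.symm⟩⟩
  have huF : u ∈ Fc := hu.1
  have huF' := huF
  rw [hFc] at huF'
  obtain ⟨huP, hum⟩ := huF'
  have hum' : pr u x = μ := hum
  have hupd : u ∈ PD m := b6 u huP.1 huP.2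
  -- no segment around `u`
  have hext : ∀ w : MM m, u + w ∈ PP m → u - w ∈ PP m → w = 0 := by
    intro w h1 h2
    have e1 := hmin _ h1
    have e2 := hmin _ h2
    have e3 : pr (u + w) x = μ + pr w x := by rw [pr_add_left, hum']
    have e4 : pr (u - w) x = μ - pr w x := by
      rw [sub_eq_add_neg, pr_add_left, hum', pr_neg_left]
      ring
    rw [e3, ← hμ] at e1
    rw [e4, ← hμ] at e2
    have e5 : pr w x = 0 := by linarith
    have q1 : u + w ∈ Fc := by
      rw [hFc]; exact ⟨h1, by show pr (u + w) x = μ; rw [e3, e5, add_zero]⟩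
    have q2 : u - w ∈ Fc := by
      rw [hFc]; exact ⟨h2, by show pr (u - w) x = μ; rw [e4, e5, sub_zero]⟩
    have q3 : u ∈ openSegment ℝ (u + w) (u - w) := by
      refine ⟨1 / 2, 1 / 2, by norm_num, by norm_num, by norm_num, ?_⟩
      rw [← smul_add]
      have : u + w + (u - w) = (2 : ℝ) • u := by rw [two_smul]; abel
      rw [this, smul_smul]
      norm_num
    have q4 := hu.2 q1 q2 q3
    simpa using q4
  have hfin : {v : Fin m → ℤ | v ≠ 0 ∧ qf u (rv v) = 1}.Finite :=
    (b7 u hupd 1).subset fun v hv => hv.2.le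
  -- symmetrization
  have hsym : ∀ d : MM m, ∀ i j, (d + d.transpose) i j = (d + d.transpose) j i := by
    intro d i j
    rw [Matrix.add_apply, Matrix.add_apply, Matrix.transpose_apply, Matrix.transpose_apply]
    ring
  have hsy : ∀ (d y : MM m), (∀ i j, y i j = y j i) → pr (d + d.transpose) y = 2 * pr d y := by
    intro d y hy
    rw [pr_add_left, pr_tr d y hy]
    ring
  refine ⟨u, ⟨hupd, huP.2, ?_⟩, hfin.toFinset, ?_⟩
  · intro y hy
    by_contra hne
    obtain ⟨f, hfy, hf⟩ := Submodule.exists_le_ker_of_notMem hne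
    -- the matrix of `f`
    obtain ⟨d, hd⟩ : ∃ d : MM m, ∀ z : MM m, f z = pr d z := by
      refine ⟨fun i j => f (Matrix.single i j 1), fun z => ?_⟩
      conv_lhs => rw [Matrix.matrix_eq_sum_single z]
      rw [map_sum]
      unfold pr
      refine Finset.sum_congr rfl fun i _ => ?_
      rw [map_sum]
      refine Finset.sum_congr rfl fun j _ => ?_
      have e : Matrix.single i j (z i j) = (z i j) • Matrix.single i j (1 : ℝ) := by
        rw [Matrix.smul_single, smul_eq_mul, mul_one]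
      rw [e, map_smul, smul_eq_mul, mul_comm]
    have hdv : ∀ v : Fin m → ℤ, v ≠ 0 → qf u (rv v) = 1 → qf (d + d.transpose) (rv v) = 0 := by
      intro v hv hv1
      have h1 : sq (rv v) ∈ LinearMap.ker f := hf (Submodule.subset_span ⟨v, hv, hv1, rfl⟩)
      rw [LinearMap.mem_ker, hd] at h1
      rw [qf_pr, hsy _ _ (sq_symm _), h1, mul_zero]
    have m1 := move hB hupd huP (d + d.transpose) (hsym d) fun v hv hv1 => (hdv v hv hv1).ge
    have m2 := move hB hupd huP (-(d + d.transpose)) (fun i j => by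
        rw [Matrix.neg_apply, Matrix.neg_apply, hsym d i j]) fun v hv hv1 => by
      rw [qf_pr, pr_neg_left, ← qf_pr, hdv v hv hv1, neg_zero]
    obtain ⟨ε, ⟨hε1, hε2⟩, hε0⟩ := ((m1.and m2).and self_mem_nhdsWithin).exists
    have hε : (0 : ℝ) < ε := hε0
    have h1 := hext (ε • (d + d.transpose)) hε1 (by
      rw [smul_neg] at hε2
      rwa [sub_eq_add_neg])
    rcases smul_eq_zero.1 h1 with h2 | h2
    · exact hε.ne' h2
    · apply hfy
      have h3 := hsy d y hy
      rw [h2] at h3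
      have h4 : pr (0 : MM m) y = 0 := by
        unfold pr
        simp
      rw [hd]
      linarith
  · -- Farkas
    obtain ⟨F, hF⟩ : ∃ F, F = hfin.toFinset := ⟨_, rfl⟩
    have hFm : ∀ v, v ∈ F ↔ v ≠ 0 ∧ qf u (rv v) = 1 := by
      intro v
      rw [hF, Set.Finite.mem_toFinset]
      rfl
    rw [← hF]
    classical
    let e := F.equivFin
    obtain ⟨w, hw, hws⟩ := H575R2.farkas_lin F.card
      (fun i => -((prL (m := m)).flip (sq (rv ((e.symm i : F) : Fin m → ℤ)))))
      (-((prL (m := m)).flip x)) (by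
        intro d hd
        simp only [LinearMap.neg_apply, LinearMap.flip_apply, prL_apply] at hd ⊢
        by_contra hneg
        push Not at hneg
        have m1 := move hB hupd huP (d + d.transpose) (hsym d) fun v hv hv1 => by
          have h1 := hd (e ⟨v, (hFm v).2 ⟨hv, hv1⟩⟩)
          rw [Equiv.symm_apply_apply] at h1
          rw [qf_pr, hsy _ _ (sq_symm _)]
          linarith
        obtain ⟨ε, hε1, hε0⟩ := (m1.and self_mem_nhdsWithin).exists
        have hε : (0 : ℝ) < ε := hε0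
        have h1 := hmin _ hε1
        rw [pr_add_left, pr_smul_left, hum', ← hμ, hsy d x hxs] at h1
        have : 0 < ε * -pr d x := mul_pos hε hneg
        nlinarith)
    refine ⟨fun v => if h : v ∈ F then w (e ⟨v, h⟩) else 0, fun v hv => (hFm v).1 hv,
      fun v => ?_, ?_⟩
    · by_cases h : v ∈ F
      · simp only [h, dif_pos]
        exact hw _
      · simp only [h, dif_neg, not_false_iff]
        exact le_rfl
    · have h1 : ∀ d : MM m, pr d x = ∑ i, w i * pr d (sq (rv ((e.symm i : F) : Fin m → ℤ))) := by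
        intro d
        have h2 := hws d
        simp only [LinearMap.neg_apply, LinearMap.flip_apply, prL_apply] at h2
        have h3 : ∑ i, w i * -pr d (sq (rv ((e.symm i : F) : Fin m → ℤ))) =
            -∑ i, w i * pr d (sq (rv ((e.symm i : F) : Fin m → ℤ))) := by
          rw [← Finset.sum_neg_distrib]
          exact Finset.sum_congr rfl fun i _ => by ring
        rw [h3] at h2
        linarith
      have hs : ∀ (a b : Fin m) (y : MM m), pr (Matrix.single a b 1) y = y a b := by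
        intro a b y
        unfold pr
        rw [Finset.sum_eq_single a, Finset.sum_eq_single b]
        · rw [Matrix.single_apply_same, one_mul]
        · intro j _ hj
          rw [Matrix.single_apply_of_col_ne _ _ (Ne.symm hj), zero_mul]
        · intro h; exact absurd (Finset.mem_univ b) h
        · intro i _ hi
          refine Finset.sum_eq_zero fun j _ => ?_
          rw [Matrix.single_apply_of_row_ne (Ne.symm hi), zero_mul]
        · intro h; exact absurd (Finset.mem_univ a) h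
      ext a b
      have h4 := h1 (Matrix.single a b 1)
      rw [hs] at h4
      simp only [hs] at h4
      rw [h4, Matrix.sum_apply]
      rw [← Finset.sum_coe_sort F]
      rw [← Equiv.sum_comp e]
      refine Finset.sum_congr rfl fun v _ => ?_
      rw [Equiv.symm_apply_apply, Matrix.smul_apply, smul_eq_mul]
      show _ = (if h : (v : Fin m → ℤ) ∈ F then w (e ⟨v, h⟩) else 0) * _
      rw [dif_pos v.2]

end Pool.Agent.L0h48.VO
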